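import Mathlib
import Pool.Agent.H759R2.Kad.Props5

/-!
Task F9: a II₁ factor is `M₂(N)` for a II₁ factor `N`.
-/

open scoped ComplexOrder InnerProductSpace ComplexConjugate
open Finset

noncomputable section

namespace H759R2.Kad

universe u v

namespace F09

variable {H : Type u} [NormedAddCommGroup H] [InnerProductSpace ℂ H] [CompleteSpace H]

/-- Matrix units. -/
structure MU (e : Fin 2 → Fin 2 → (H →L[ℂ] H)) : Prop where
  mul_eq : ∀ i j k, e i j * e j k = e i k
  mul_ne : ∀ i j k l, j ≠ k → e i j * e k l = 0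
  st : ∀ i j, star (e i j) = e j i
  one : ∑ i, e i i = 1

theorem exists_mu (M : VonNeumannAlgebra H) (v : H →L[ℂ] H) (hv : v ∈ M) (h0 : v * v = 0)
    (h1 : star v * v + v * star v = 1) :
    ∃ e : Fin 2 → Fin 2 → (H →L[ℂ] H), MU e ∧ (∀ i j, e i j ∈ M) := by
  have hs : star v ∈ M := star_mem hv
  have h0' : star v * star v = 0 := by
    rw [← star_mul, h0, star_zero]
  have hvv : v * star v * v = v := by
    have := congrArg (fun x => v * x) h1
    simp only [mul_add, mul_one] at this
    rw [← mul_assoc v v (star v), h0, zero_mul, add_zero, ← mul_assoc] at this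
    exact this
  have hvv' : star v * v * star v = star v := by
    have := congrArg star hvv
    simpa [star_mul, mul_assoc] using this
  have h0l : ∀ w, v * (v * w) = 0 := fun w => by rw [← mul_assoc, h0, zero_mul]
  have h0l' : ∀ w, star v * (star v * w) = 0 := fun w => by rw [← mul_assoc, h0', zero_mul]
  refine ⟨![![star v * v, star v], ![v, v * star v]], ⟨?_, ?_, ?_, ?_⟩, ?_⟩
  · intro i j k
    fin_cases i <;> fin_cases j <;> fin_cases k <;>
      simp [mul_assoc] <;> simp only [← mul_assoc, hvv, hvv']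
  · intro i j k l hjk
    fin_cases i <;> fin_cases j <;> fin_cases k <;> fin_cases l <;>
      first
      | exact absurd rfl hjk
      | (simp [mul_assoc, h0, h0', h0l, h0l'])
  · intro i j
    fin_cases i <;> fin_cases j <;> simp
  · simpa [Fin.sum_univ_two] using h1
  · intro i j
    fin_cases i <;> fin_cases j
    · exact mul_mem hs hv
    · exact hs
    · exact hv
    · exact mul_mem hv hs

/-- The relative commutant of the matrix units. -/
def rc (M : VonNeumannAlgebra H) (e : Fin 2 → Fin 2 → (H →L[ℂ] H)) : VonNeumannAlgebra H where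
  toStarSubalgebra := StarSubalgebra.centralizer ℂ
    (Set.centralizer (M : Set (H →L[ℂ] H)) ∪ Set.range fun q : Fin 2 × Fin 2 => e q.1 q.2)
  centralizer_centralizer' := by
    change Set.centralizer (Set.centralizer (StarSubalgebra.centralizer ℂ
      (Set.centralizer (M : Set (H →L[ℂ] H)) ∪
        Set.range fun q : Fin 2 × Fin 2 => e q.1 q.2) : Set (H →L[ℂ] H))) = _
    rw [StarSubalgebra.coe_centralizer]
    rw [Set.centralizer_centralizer_centralizer]
    rfl

theorem mem_rc {M : VonNeumannAlgebra H} {e : Fin 2 → Fin 2 → (H →L[ℂ] H)} (he : MU e)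
    {x : H →L[ℂ] H} : x ∈ rc M e ↔ x ∈ M ∧ ∀ i j, e i j * x = x * e i j := by
  have h1 : x ∈ rc M e ↔ x ∈ StarSubalgebra.centralizer ℂ
    (Set.centralizer (M : Set (H →L[ℂ] H)) ∪ Set.range fun q : Fin 2 × Fin 2 => e q.1 q.2) :=
    Iff.rfl
  rw [h1, StarSubalgebra.mem_centralizer_iff]
  constructor
  · intro h
    refine ⟨?_, fun i j => ?_⟩
    · have : x ∈ Set.centralizer (Set.centralizer (M : Set (H →L[ℂ] H))) := by
        intro g hg
        exact (h g (Or.inl hg)).1
      rw [VonNeumannAlgebra.centralizer_centralizer] at this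
      exact this
    · exact (h (e i j) (Or.inr ⟨(i, j), rfl⟩)).1
  · rintro ⟨h2, h3⟩ g hg
    rcases hg with hg | ⟨⟨i, j⟩, rfl⟩
    · refine ⟨?_, ?_⟩
      · exact (hg x h2).symm
      · have := hg (star x) (star_mem (S := VonNeumannAlgebra H) h2)
        have h4 := congrArg star this
        simpa [star_mul] using h4
    · refine ⟨h3 i j, ?_⟩
      simp only [he.st]
      exact h3 j i

theorem rc_le {M : VonNeumannAlgebra H} {e : Fin 2 → Fin 2 → (H →L[ℂ] H)} (he : MU e) :
    (rc M e).toStarSubalgebra ≤ M.toStarSubalgebra := fun _ hx => ((mem_rc he).1 hx).1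

/-- Coefficients. -/
def cf (e : Fin 2 → Fin 2 → (H →L[ℂ] H)) (x : H →L[ℂ] H) (i j : Fin 2) : H →L[ℂ] H :=
  ∑ r, e r i * x * e j r

theorem cf_mem {M : VonNeumannAlgebra H} {e : Fin 2 → Fin 2 → (H →L[ℂ] H)} (he : MU e)
    (hM : ∀ i j, e i j ∈ M) {x : H →L[ℂ] H} (hx : x ∈ M) (i j : Fin 2) :
    cf e x i j ∈ rc M e := by
  rw [mem_rc he]
  refine ⟨?_, fun k l => ?_⟩
  · exact sum_mem fun r _ => mul_mem (mul_mem (hM _ _) hx) (hM _ _)
  · rw [cf, mul_sum, sum_mul]
    rw [Finset.sum_eq_single l, Finset.sum_eq_single k]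
    · rw [mul_assoc (e k i * x), he.mul_eq, ← mul_assoc, ← mul_assoc, he.mul_eq]
    · intro r _ hr
      rw [mul_assoc (e r i * x), he.mul_ne _ _ _ _ hr, mul_zero]
    · simp
    · intro r _ hr
      rw [← mul_assoc, ← mul_assoc, he.mul_ne _ _ _ _ hr.symm, zero_mul, zero_mul]
    · simp

theorem cf_mul {e : Fin 2 → Fin 2 → (H →L[ℂ] H)} (he : MU e) (x y : H →L[ℂ] H) (i j : Fin 2) :
    cf e (x * y) i j = ∑ k, cf e x i k * cf e y k j := by
  have h1 : ∀ k, cf e x i k * cf e y k j = ∑ r, e r i * x * e k k * y * e j r := by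
    intro k
    rw [cf, cf, sum_mul]
    refine Finset.sum_congr rfl fun r _ => ?_
    rw [mul_sum, Finset.sum_eq_single r]
    · rw [show e r i * x * e k r * (e r k * y * e j r) = e r i * x * (e k r * e r k) * y * e j r by
        simp only [mul_assoc], he.mul_eq]
    · intro s _ hs
      rw [show e r i * x * e k r * (e s k * y * e j s) = e r i * x * (e k r * e s k) * y * e j s by
        simp only [mul_assoc], he.mul_ne _ _ _ _ hs.symm]
      simp
    · simp
  simp only [h1]
  rw [Finset.sum_comm, cf]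
  refine Finset.sum_congr rfl fun r _ => ?_
  rw [← sum_mul, ← sum_mul, ← mul_sum, he.one]
  simp only [mul_assoc, one_mul]

theorem cf_star {e : Fin 2 → Fin 2 → (H →L[ℂ] H)} (he : MU e) (x : H →L[ℂ] H) (i j : Fin 2) :
    star (cf e x j i) = cf e (star x) i j := by
  rw [cf, cf, star_sum]
  refine Finset.sum_congr rfl fun r _ => ?_
  rw [star_mul, star_mul, he.st, he.st, mul_assoc]

theorem cf_one {e : Fin 2 → Fin 2 → (H →L[ℂ] H)} (he : MU e) (i j : Fin 2) :
    cf e 1 i j = if i = j then 1 else 0 := by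
  rw [cf]
  simp only [mul_one]
  by_cases h : i = j
  · subst h
    simp only [he.mul_eq, if_true, he.one]
  · simp only [he.mul_ne _ _ _ _ h, h, if_false, sum_const_zero]

theorem cf_add (e : Fin 2 → Fin 2 → (H →L[ℂ] H)) (x y : H →L[ℂ] H) (i j : Fin 2) :
    cf e (x + y) i j = cf e x i j + cf e y i j := by
  simp only [cf, mul_add, add_mul, sum_add_distrib]

theorem cf_smul (e : Fin 2 → Fin 2 → (H →L[ℂ] H)) (c : ℂ) (x : H →L[ℂ] H) (i j : Fin 2) :
    cf e (c • x) i j = c • cf e x i j := by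
  simp only [cf, mul_smul_comm, smul_mul_assoc, smul_sum]

theorem cf_rec {e : Fin 2 → Fin 2 → (H →L[ℂ] H)} (he : MU e) (x : H →L[ℂ] H) :
    ∑ i, ∑ j, cf e x i j * e i j = x := by
  have h1 : ∀ i j, cf e x i j * e i j = e i i * x * e j j := by
    intro i j
    rw [cf, sum_mul, Finset.sum_eq_single i]
    · rw [mul_assoc, he.mul_eq]
    · intro r _ hr
      rw [mul_assoc, he.mul_ne _ _ _ _ hr, mul_zero]
    · simp
  simp only [h1]
  simp only [← mul_sum, he.one, mul_one]
  rw [← sum_mul, he.one, one_mul]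

theorem cf_inv {e : Fin 2 → Fin 2 → (H →L[ℂ] H)} (he : MU e) (a : Fin 2 → Fin 2 → (H →L[ℂ] H))
    (ha : ∀ i j k l, e i j * a k l = a k l * e i j) (i j : Fin 2) :
    cf e (∑ k, ∑ l, a k l * e k l) i j = a i j := by
  rw [cf]
  have h1 : ∀ r, e r i * (∑ k, ∑ l, a k l * e k l) * e j r = a i j * e r r := by
    intro r
    rw [mul_sum, sum_mul, Finset.sum_eq_single i]
    · rw [mul_sum, sum_mul, Finset.sum_eq_single j]
      · rw [← mul_assoc, ha, mul_assoc (a i j), he.mul_eq, mul_assoc, he.mul_eq]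
      · intro l _ hl
        rw [← mul_assoc, ha, mul_assoc (a i l), he.mul_eq, mul_assoc, he.mul_ne _ _ _ _ hl,
          mul_zero]
      · simp
    · intro k _ hk
      rw [mul_sum, sum_mul]
      refine Finset.sum_eq_zero fun l _ => ?_
      rw [← mul_assoc, ha, mul_assoc (a k l), he.mul_ne _ _ _ _ hk.symm, mul_zero, zero_mul]
    · simp
  simp only [h1]
  rw [← mul_sum, he.one, mul_one]

/-- The isomorphism. -/
def iso {M : VonNeumannAlgebra H} {e : Fin 2 → Fin 2 → (H →L[ℂ] H)} (he : MU e)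
    (hM : ∀ i j, e i j ∈ M) :
    M.toStarSubalgebra ≃⋆ₐ[ℂ] CStarMatrix (Fin 2) (Fin 2) (rc M e).toStarSubalgebra where
  toFun x := CStarMatrix.ofMatrix fun i j => ⟨cf e x.1 i j, cf_mem he hM x.2 i j⟩
  invFun a := ⟨∑ i, ∑ j, (a i j : H →L[ℂ] H) * e i j, sum_mem fun i _ => sum_mem fun j _ =>
    mul_mem (rc_le he (a i j).2) (hM i j)⟩
  left_inv x := Subtype.ext (cf_rec he x.1)
  right_inv a := by
    refine CStarMatrix.ext fun i j => Subtype.ext ?_
    exact cf_inv he (fun i j => (a i j : H →L[ℂ] H))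
      (fun i j k l => ((mem_rc he).1 (a k l).2).2 i j) i j
  map_mul' x y := by
    refine CStarMatrix.ext fun i j => Subtype.ext ?_
    rw [CStarMatrix.mul_apply]
    have := cf_mul he x.1 y.1 i j
    simpa using this
  map_add' x y := by
    exact CStarMatrix.ext fun i j => Subtype.ext (cf_add e x.1 y.1 i j)
  map_star' x := by
    refine CStarMatrix.ext fun i j => ?_
    rw [CStarMatrix.star_apply]
    exact Subtype.ext (cf_star he x.1 i j).symm
  map_smul' c x := by
    exact CStarMatrix.ext fun i j => Subtype.ext (cf_smul e c x.1 i j)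

/-- Restriction of the trace. -/
def restr {M : VonNeumannAlgebra H} {e : Fin 2 → Fin 2 → (H →L[ℂ] H)} (he : MU e)
    (τ : M.toStarSubalgebra →ₗ[ℂ] ℂ) : (rc M e).toStarSubalgebra →ₗ[ℂ] ℂ :=
  τ ∘ₗ (StarSubalgebra.inclusion (rc_le (M := M) he)).toAlgHom.toLinearMap

theorem isII1 {M : VonNeumannAlgebra H} {e : Fin 2 → Fin 2 → (H →L[ℂ] H)} (he : MU e)
    (hM : ∀ i j, e i j ∈ M) (τ : M.toStarSubalgebra →ₗ[ℂ] ℂ) (h : IsII1 M τ) :
    IsII1 (rc M e) (restr he τ) where
  center z hz hz2 := by
    have h1 := (mem_rc he).1 hz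
    refine h.center z h1.1 fun a ha => ?_
    rw [← cf_rec he a]
    rw [mul_sum, sum_mul]
    refine Finset.sum_congr rfl fun i _ => ?_
    rw [mul_sum, sum_mul]
    refine Finset.sum_congr rfl fun j _ => ?_
    rw [← mul_assoc, hz2 _ (cf_mem he hM ha i j), mul_assoc, mul_assoc, h1.2 i j]
  infinite := by
    intro hfin
    apply h.infinite
    let f : (Fin 2 → Fin 2 → (rc M e).toStarSubalgebra) →ₗ[ℂ] M.toStarSubalgebra :=
      { toFun := fun a => (iso he hM).symm (CStarMatrix.ofMatrix a)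
        map_add' := fun a b => map_add (iso he hM).symm (CStarMatrix.ofMatrix a)
          (CStarMatrix.ofMatrix b)
        map_smul' := fun c a => (iso he hM).symm.map_smul' c (CStarMatrix.ofMatrix a) }
    refine Module.Finite.of_surjective f fun x => ⟨fun i j => (iso he hM x) i j, ?_⟩
    exact (iso he hM).symm_apply_apply x
  trace :=
    { one := by
        have h2 : restr (M := M) he τ 1 = τ 1 := rfl
        rw [h2, h.trace.one]
      pos := fun a => h.trace.pos (StarSubalgebra.inclusion (rc_le (M := M) he) a)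
      comm := fun a b => h.trace.comm (StarSubalgebra.inclusion (rc_le (M := M) he) a)
        (StarSubalgebra.inclusion (rc_le (M := M) he) b) }
  faithful a ha := by
    have h1 := h.faithful (StarSubalgebra.inclusion (rc_le (M := M) he) a) ha
    have h2 := congrArg (fun x : M.toStarSubalgebra => (x : H →L[ℂ] H)) h1
    exact Subtype.ext h2

end F09

theorem prove5_two (h : F_half.{u}) : F_two.{u} := by
  intro H _ _ _ M τ hM
  obtain ⟨v, hv, h0, h1⟩ := h H M τ hM
  obtain ⟨e, he, heM⟩ := F09.exists_mu M v hv h0 h1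
  exact ⟨F09.rc M e, F09.restr he τ, F09.isII1 he heM τ hM, ⟨F09.iso he heM⟩⟩

end H759R2.Kad
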